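import Pool.Agent.K7.H49.LT.Lin

set_option autoImplicit false

/-! # Prime `k`-tuples `a_i n + b_i` with `n` bounded by a power of the logarithm

For almost all leading coefficients and almost all constant terms the Hardy-Littlewood asymptotic
formula holds (up to a factor `1 ± ε`) for the number of `n ≤ M` with all `a_i n + b_i` prime, where
`M` is a power of the logarithm of the coefficients. The set of good leading coefficients does not
depend on the tuple; it contains almost all members of every family of nearly minimal additive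
energy. -/

namespace Pool.Agent.Results.MP_746f10_nt.AlmostAllCoefficients

open Finset

/-- the number of solutions of `s(v 1) + ... + s(v h) = s(w 1) + ... + s(w h)` with all `v i`, `w i` in
`{1, ..., x}` -/
def energy (h x : ℕ) (s : ℕ → ℕ) : ℕ :=
  (((Fintype.piFinset fun _ : Fin h => Icc 1 x) ×ˢ (Fintype.piFinset fun _ : Fin h => Icc 1 x)).filter
    (fun q => ∑ i, s (q.1 i) = ∑ i, s (q.2 i))).card

/-- the number of `1 ≤ n ≤ M` for which all the numbers `a_i n + b_i` are prime -/
def count {k : ℕ} (a b : Fin k → ℕ) (M : ℕ) : ℕ :=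
  ((Icc 1 M).filter (fun n => ∀ i, (a i * n + b i).Prime)).card

/-- the number of the classes `n` modulo `p` for which `p` divides some `a_i n + b_i` -/
def roots {k : ℕ} (a b : Fin k → ℕ) (p : ℕ) : ℕ := ((range p).filter (fun n => ∃ i, p ∣ a i * n + b i)).card

/-- the singular series, truncated at `y` -/
noncomputable def sing {k : ℕ} (a b : Fin k → ℕ) (y : ℕ) : ℝ :=
  ∏ p ∈ (Icc 1 y).filter Nat.Prime, (1 - (roots a b p : ℝ) / p) / (1 - 1 / (p : ℝ)) ^ k

/-- for every prime `p` some integer `n` makes all the values `a_i n + b_i` prime to `p` -/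
def Admissible {k : ℕ} (a b : Fin k → ℕ) : Prop := ∀ p : ℕ, p.Prime → ∃ n : ℤ, ∀ i, ¬ (p : ℤ) ∣ a i * n + b i

/-- the Hardy-Littlewood formula, up to a factor `1 ± ε`, with the singular series truncated at any
`y ≥ M` -/
def Holds {k : ℕ} (ε : ℝ) (a b : Fin k → ℕ) (M : ℕ) : Prop :=
  ∀ y : ℕ, M ≤ y → |(count a b M : ℝ) - sing a b y * (M / ∏ i, Real.log (a i))| ≤
    ε * (sing a b y * (M / ∏ i, Real.log (a i)))

open Classical in
/-- the number of the vectors `b`, `1 ≤ b_i < a_i`, for which the formula fails -/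
noncomputable def exceptions {k : ℕ} (ε : ℝ) (a : Fin k → ℕ) (M : ℕ) : ℕ :=
  ((Fintype.piFinset fun i => Ico 1 (a i)).filter (fun b => ¬ Holds ε a b M)).card

lemma energy_eq (h x : ℕ) (s : ℕ → ℕ) : energy h x s = Pool.Agent.H373R2.T7.energy h x (fun l => (s l : ℤ)) := by
  unfold energy Pool.Agent.H373R2.T7.energy
  congr 1
  apply filter_congr
  intro q _
  simp only
  rw [← Nat.cast_sum, ← Nat.cast_sum, Nat.cast_inj]

lemma holds_of {k : ℕ} (ε : ℝ) (a b : Fin k → ℕ) (M : ℕ) (ha : ∀ i, 2 ≤ a i) (h : Pool.Agent.K7.H49.LT.Hol ε a b M) :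
    Holds ε a b M := by
  intro y hy
  have h1 := h y hy
  have hP : 0 < ∏ i, Real.log (a i) := prod_pos fun i _ => Real.log_pos (by
    have := ha i
    exact_mod_cast (by omega : 1 < a i))
  have e1 : Pool.Agent.K7.H49.LT.cl a b M = count a b M := rfl
  have e2 : Pool.Agent.K7.H49.LT.sg k (Pool.Agent.K7.H49.LT.rt a b) y = sing a b y := rfl
  rw [e1, e2] at h1
  set P := ∏ i, Real.log (a i) with hPd
  set s := sing a b y
  have e3 : (count a b M : ℝ) - s * (M / P) = (count a b M * P - M * s) / P := by field_simp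
  have e4 : ε * (s * (M / P)) = (ε * (M * s)) / P := by ring
  rw [e3, e4, abs_div, abs_of_pos hP]
  exact div_le_div_of_nonneg_right h1 hP.le

open Classical in
/-- **Prime tuples in almost all systems of linear forms.** Let `k ≥ 1` and `ε > 0`. There are an exponent
`C` and `κ > 0` such that for all `A`, `B`, `E`, `H` there is a set `𝒢` of positive integers with the
following properties.

(1) At most `N / (log N)^A` of the integers up to `N` are not in `𝒢`, for large `N`.

(2) More generally, let `1 ≤ h ≤ H` and let `s 1, ..., s x ≤ B N` have the nearly minimal additive energy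
`E_h ≤ x^(2 h) (log N)^B / N`. Then at most `x / (log N)^A` of the `s l ≥ N / (log N)^B` are not in `𝒢`.

(3) For all `a_1, ..., a_k ∈ 𝒢` (large) and all `M` with `(log a_i)^C ≤ M ≤ (log a_i)^E` for all `i`: for all
but `M^(-κ) a_1 ⋯ a_k` of the vectors `b` with `1 ≤ b_i < a_i`, the number of `n ≤ M` for which all
`a_i n + b_i` are prime is within a factor `1 ± ε` of the prediction of Hardy and Littlewood.

(4) For every admissible system the (truncated) singular series is at least
`(3 k)^(-3 k) exp(-2 k^2)`. -/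
theorem result (k : ℕ) (hk : 1 ≤ k) (ε : ℝ) (hε : 0 < ε) : ∃ C : ℕ, ∃ κ : ℝ, 0 < κ ∧ ∀ A B E H : ℕ,
    ∃ (𝒢 : Set ℕ) (N₀ : ℕ),
      (∀ N : ℕ, N₀ ≤ N → (((Icc 1 N).filter (fun a => a ∉ 𝒢)).card : ℝ) ≤ N / Real.log N ^ A) ∧
      (∀ h : ℕ, h ≤ H → ∀ N : ℕ, N₀ ≤ N → ∀ (x : ℕ) (s : ℕ → ℕ), (∀ l ∈ Icc 1 x, s l ≤ B * N) →
        (energy h x s : ℝ) * N ≤ Real.log N ^ B * (x : ℝ) ^ (2 * h) →
        (((Icc 1 x).filter (fun l => (N : ℝ) ≤ Real.log N ^ B * s l ∧ s l ∉ 𝒢)).card : ℝ) ≤ x / Real.log N ^ A) ∧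
      (∀ a : Fin k → ℕ, (∀ i, a i ∈ 𝒢 ∧ N₀ ≤ a i) → ∀ M : ℕ,
        (∀ i, Real.log (a i) ^ C ≤ M ∧ (M : ℝ) ≤ Real.log (a i) ^ E) →
        (exceptions ε a M : ℝ) ≤ (M : ℝ) ^ (-κ) * ∏ i, (a i : ℝ)) ∧
      (∀ a b : Fin k → ℕ, Admissible a b → ∀ y : ℕ,
        (1 / (3 * k : ℝ)) ^ (3 * k) * Real.exp (-(2 * (k : ℝ) ^ 2)) ≤ sing a b y) := by
  obtain ⟨C, κ, hκ, hmain⟩ := Pool.Agent.K7.H49.LT.lin_main k hk ε hε
  refine ⟨C, κ, hκ, fun A B E H => ?_⟩
  obtain ⟨E1, n1, h1⟩ := Pool.Agent.K7.H49.LT.lin_fam E (A + 1) (max B (A + 2)) (max H 1)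
  obtain ⟨n2, h2⟩ := hmain E E1
  obtain ⟨n3, h3⟩ := Pool.Agent.H373R2.T7.ev_L' 4
  refine ⟨{a | Pool.Agent.K7.H49.LT.Gd E E1 a}, max n1 (max n2 (max n3 3)), ?_, ?_, ?_, ?_⟩
  · intro N hN
    have b1 : n1 ≤ N := (le_max_left _ _).trans hN
    have b3 : n3 ≤ N := (((le_max_left _ _).trans (le_max_right _ _)).trans (le_max_right _ _)).trans hN
    have b4 : 3 ≤ N := (((le_max_right _ _).trans (le_max_right _ _)).trans (le_max_right _ _)).trans hN
    have hL := h3 N b3
    have hNr : (3 : ℝ) ≤ N := by exact_mod_cast b4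
    set L := Real.log N with hLd
    have hL0 : 0 < L := by linarith
    have hL1 : 1 ≤ L := by linarith
    have hen : Pool.Agent.H373R2.T7.energy 1 N (fun l => ((l : ℕ) : ℤ)) ≤ N := by
      unfold Pool.Agent.H373R2.T7.energy
      calc _ ≤ (Fintype.piFinset fun _ : Fin 1 => Icc 1 N).card := by
            apply card_le_card_of_injOn (fun q => q.1)
            · intro q hq
              rw [mem_coe, mem_filter, mem_product] at hq
              exact hq.1.1
            · intro q hq q' hq' hqq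
              rw [mem_coe, mem_filter] at hq hq'
              simp only at hqq
              have e1 := hq.2
              have e2 := hq'.2
              simp only [univ_unique, Fin.default_eq_zero, Fin.isValue, sum_singleton, Nat.cast_inj] at e1 e2
              have e3 : q.2 = q'.2 := by
                funext i
                have hi : i = 0 := Subsingleton.elim _ _
                rw [hi, ← e1, ← e2, hqq]
              exact Prod.ext hqq e3
        _ = N := by simp
    have key := h1 1 (le_max_right _ _) N b1 N (fun l => l) (fun l hl => by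
        have h5 := (mem_Icc.1 hl).2
        have h6 : 1 ≤ max B (A + 2) := le_trans (by omega) (le_max_right _ _)
        calc l ≤ N := h5
          _ ≤ max B (A + 2) * N := Nat.le_mul_of_pos_left _ h6) (by
        have h5 : (Pool.Agent.H373R2.T7.energy 1 N (fun l => ((l : ℕ) : ℤ)) : ℝ) ≤ N := by exact_mod_cast hen
        have h6 : 1 ≤ L ^ max B (A + 2) := one_le_pow₀ hL1
        have h7 : (0 : ℝ) ≤ (N : ℝ) ^ 2 := by positivity
        calc _ ≤ (N : ℝ) * N := mul_le_mul_of_nonneg_right h5 (by positivity)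
          _ = 1 * (N : ℝ) ^ (2 * 1) := by ring
          _ ≤ _ := mul_le_mul_of_nonneg_right h6 (by positivity))
    have hsub : (Icc 1 N).filter (fun a => a ∉ {a | Pool.Agent.K7.H49.LT.Gd E E1 a}) ⊆
        ((Icc 1 N).filter (fun l => (N : ℝ) ≤ L ^ max B (A + 2) * l ∧ ¬ Pool.Agent.K7.H49.LT.Gd E E1 l)) ∪
        Icc 1 ⌊(N : ℝ) / L ^ (A + 2)⌋₊ := by
      intro l hl
      rw [mem_filter] at hl
      rw [mem_union]
      by_cases h5 : (N : ℝ) ≤ L ^ max B (A + 2) * l
      · left
        rw [mem_filter]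
        exact ⟨hl.1, h5, hl.2⟩
      · right
        rw [mem_Icc]
        refine ⟨(mem_Icc.1 hl.1).1, Nat.le_floor ?_⟩
        rw [not_le] at h5
        rw [le_div_iff₀ (by positivity)]
        have h6 : L ^ (A + 2) ≤ L ^ max B (A + 2) := pow_le_pow_right₀ hL1 (le_max_right _ _)
        have h7 : (0 : ℝ) ≤ l := Nat.cast_nonneg _
        nlinarith
    have h5 : (((Icc 1 N).filter (fun a => a ∉ {a | Pool.Agent.K7.H49.LT.Gd E E1 a})).card : ℝ) ≤
        N / L ^ (A + 1) + N / L ^ (A + 2) := by
      have h6 := (card_le_card hsub).trans (card_union_le _ _)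
      rw [Nat.card_Icc, Nat.add_sub_cancel] at h6
      have h7 : (((Icc 1 N).filter (fun a => a ∉ {a | Pool.Agent.K7.H49.LT.Gd E E1 a})).card : ℝ) ≤
          (((Icc 1 N).filter (fun l : ℕ => (N : ℝ) ≤ L ^ max B (A + 2) * l ∧ ¬ Pool.Agent.K7.H49.LT.Gd E E1 l)).card : ℝ) +
          (⌊(N : ℝ) / L ^ (A + 2)⌋₊ : ℝ) := by exact_mod_cast h6
      refine h7.trans (add_le_add key ?_)
      exact Nat.floor_le (by positivity)
    refine h5.trans ?_
    have e1 : (N : ℝ) / L ^ (A + 1) = (N / L ^ A) * (1 / L) := by rw [pow_succ]; field_simp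
    have e2 : (N : ℝ) / L ^ (A + 2) = (N / L ^ A) * (1 / L) ^ 2 := by rw [pow_add]; field_simp
    rw [e1, e2, ← mul_add]
    have h6 : 1 / L ≤ 1 / 4 := one_div_le_one_div_of_le (by norm_num) hL
    have h7 : 0 ≤ 1 / L := by positivity
    have h8 : 1 / L + (1 / L) ^ 2 ≤ 1 := by nlinarith
    have h9 : 0 ≤ (N : ℝ) / L ^ A := by positivity
    nlinarith
  · intro h hh N hN x s hs hE
    have b1 : n1 ≤ N := (le_max_left _ _).trans hN
    have b3 : n3 ≤ N := (((le_max_left _ _).trans (le_max_right _ _)).trans (le_max_right _ _)).trans hN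
    have hL := h3 N b3
    set L := Real.log N with hLd
    have hL1 : 1 ≤ L := by linarith
    have hpw : L ^ B ≤ L ^ max B (A + 2) := pow_le_pow_right₀ hL1 (le_max_left _ _)
    have key := h1 h (hh.trans (le_max_left _ _)) N b1 x s (fun l hl => (hs l hl).trans (Nat.mul_le_mul_right _ (le_max_left _ _))) (by
      rw [energy_eq] at hE
      exact hE.trans (mul_le_mul_of_nonneg_right hpw (by positivity)))
    have hsub : (Icc 1 x).filter (fun l => (N : ℝ) ≤ L ^ B * s l ∧ s l ∉ {a | Pool.Agent.K7.H49.LT.Gd E E1 a}) ⊆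
        (Icc 1 x).filter (fun l => (N : ℝ) ≤ L ^ max B (A + 2) * s l ∧ ¬ Pool.Agent.K7.H49.LT.Gd E E1 (s l)) := by
      intro l hl
      rw [mem_filter] at hl ⊢
      exact ⟨hl.1, hl.2.1.trans (mul_le_mul_of_nonneg_right hpw (Nat.cast_nonneg _)), hl.2.2⟩
    have h5 : (((Icc 1 x).filter (fun l => (N : ℝ) ≤ L ^ B * s l ∧ s l ∉ {a | Pool.Agent.K7.H49.LT.Gd E E1 a})).card : ℝ) ≤ x / L ^ (A + 1) :=
      le_trans (by exact_mod_cast card_le_card hsub) key
    refine h5.trans ?_
    apply div_le_div_of_nonneg_left (Nat.cast_nonneg _) (by positivity)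
    exact pow_le_pow_right₀ hL1 (by omega)
  · intro a ha M hM
    have b2 : ∀ i, n2 ≤ a i := fun i => ((le_max_left _ _).trans (le_max_right _ _)).trans (ha i).2
    have b4 : ∀ i, 3 ≤ a i := fun i => (((le_max_right _ _).trans (le_max_right _ _)).trans (le_max_right _ _)).trans (ha i).2
    refine le_trans ?_ (h2 a (fun i => ⟨b2 i, (ha i).1⟩) M hM)
    unfold exceptions
    have hsub : (Fintype.piFinset fun i => Ico 1 (a i)).filter (fun b => ¬ Holds ε a b M) ⊆
        (Fintype.piFinset fun i => Icc 1 (a i - 1)).filter (fun b => ¬ Pool.Agent.K7.H49.LT.Hol ε a b M) := by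
      intro b hb
      rw [mem_filter, Fintype.mem_piFinset] at hb ⊢
      refine ⟨fun i => ?_, fun h5 => hb.2 (holds_of ε a b M (fun i => by have := b4 i; omega) h5)⟩
      have := mem_Ico.1 (hb.1 i)
      rw [mem_Icc]
      omega
    exact_mod_cast card_le_card hsub
  · intro a b hab y
    have hr : ∀ p ∈ Pool.Agent.H373R2.T7.pz y, roots a b p ≤ k ∧ roots a b p + 1 ≤ p := by
      intro p hp
      have hpp := (Pool.Agent.H373R2.T7.mem_pz.1 hp).2
      by_contra hcon
      have h5 := Pool.Agent.K7.H49.LT.rt_full a b p hpp hcon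
      obtain ⟨n, hn⟩ := hab p hpp
      have hp0 : (0 : ℤ) < p := by exact_mod_cast hpp.pos
      set r : ℕ := (n % p).toNat with hr
      have hr1 : (r : ℤ) = n % p := Int.toNat_of_nonneg (Int.emod_nonneg _ hp0.ne')
      have hrp : r < p := by
        have := Int.emod_lt_of_pos n hp0
        omega
      have h6 : r ∈ (range p).filter (fun n => ∃ i, p ∣ a i * n + b i) := by
        have h3 : (range p).filter (fun n => ∃ i, p ∣ a i * n + b i) = range p := by
          apply eq_of_subset_of_card_le (filter_subset _ _)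
          unfold Pool.Agent.K7.H49.LT.rt at h5
          rw [h5, card_range]
        rw [h3, mem_range]
        exact hrp
      rw [mem_filter] at h6
      obtain ⟨i, hi⟩ := h6.2
      apply hn i
      have h7 : (p : ℤ) ∣ ((a i * r + b i : ℕ) : ℤ) := Int.natCast_dvd_natCast.2 hi
      push_cast at h7
      rw [hr1] at h7
      have h8 : (a i : ℤ) * n + b i = (a i * (n % p) + b i) + p * (a i * (n / p)) := by
        have := Int.emod_add_mul_ediv n p
        calc (a i : ℤ) * n + b i = a i * (n % p + p * (n / p)) + b i := by rw [this]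
          _ = _ := by ring
      rw [h8]
      exact dvd_add h7 (dvd_mul_right _ _)
    exact Pool.Agent.H373R2.T7.local_low k hk (roots a b) y (fun p hp => (hr p hp).1) (fun p hp => (hr p hp).2)

end Pool.Agent.Results.MP_746f10_nt.AlmostAllCoefficients
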