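import Pool.Agent.K7.H49.LT.Arb
import Pool.Agent.K7.H49.LT.Dens

set_option autoImplicit false

/-! # Prime `k`-tuples `a_i n + b_i` at arbitrary sets of arguments

For leading coefficients in a set containing almost all integers (and almost all members of every
family of nearly minimal additive energy), every set `𝒩` of integers bounded by a power of the logarithm
of the coefficients, and almost all constant terms, the number of the `n ∈ 𝒩` for which all the numbers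
`a_i n + b_i` are prime is the one predicted by sieving with the primes up to `|𝒩|^(1/Q)`.
-/

namespace Pool.Agent.Results.MP_746f10_nt.ArbitraryArguments

open Finset

/-- the number of solutions of `s(v 1) + ... + s(v h) = s(w 1) + ... + s(w h)` with all `v i`, `w i` in
`{1, ..., x}` -/
def energy (h x : ℕ) (s : ℕ → ℕ) : ℕ :=
  (((Fintype.piFinset fun _ : Fin h => Icc 1 x) ×ˢ (Fintype.piFinset fun _ : Fin h => Icc 1 x)).filter
    (fun q => ∑ i, s (q.1 i) = ∑ i, s (q.2 i))).card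

/-- the number of the `n ∈ 𝒩` for which all the numbers `a_i n + b_i` are prime -/
def count {k : ℕ} (a b : Fin k → ℕ) (𝒩 : Finset ℕ) : ℕ := (𝒩.filter (fun n => ∀ i, (a i * n + b i).Prime)).card

/-- the number of the `n ∈ 𝒩` for which none of the numbers `a_i n + b_i` has a prime factor `≤ w` -/
def rough {k : ℕ} (a b : Fin k → ℕ) (𝒩 : Finset ℕ) (w : ℕ) : ℕ :=
  (𝒩.filter (fun n => ∀ p ∈ (Icc 1 w).filter Nat.Prime, ∀ i, ¬ p ∣ a i * n + b i)).card

/-- the prediction: the density of the primes among the integers of size `a_i` without prime factors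
`≤ w` is `1 / (log a_i ∏_{p ≤ w} (1 - 1/p))` -/
noncomputable def expected {k : ℕ} (a b : Fin k → ℕ) (𝒩 : Finset ℕ) (w : ℕ) : ℝ :=
  rough a b 𝒩 w * ∏ i, (1 / (Real.log (a i) * ∏ p ∈ (Icc 1 w).filter Nat.Prime, (1 - 1 / (p : ℝ))))

open Classical in
/-- the number of the vectors `b`, `1 ≤ b_i < a_i`, for which the number of the `n ∈ 𝒩` with all
`a_i n + b_i` prime is not as predicted -/
noncomputable def exceptions {k : ℕ} (ε : ℝ) (A : ℕ) (a : Fin k → ℕ) (𝒩 : Finset ℕ) (w : ℕ) : ℕ :=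
  ((Fintype.piFinset fun i => Ico 1 (a i)).filter (fun b => ¬ ∀ j,
    |(count a b 𝒩 : ℝ) - expected a b 𝒩 w| ≤ ε * expected a b 𝒩 w + 𝒩.card / Real.log (a j) ^ A)).card

lemma energy_eq (h x : ℕ) (s : ℕ → ℕ) : energy h x s = Pool.Agent.H373R2.T7.energy h x (fun l => (s l : ℤ)) := by
  unfold energy Pool.Agent.H373R2.T7.energy
  congr 1
  apply filter_congr
  intro q _
  simp only
  rw [← Nat.cast_sum, ← Nat.cast_sum, Nat.cast_inj]

open Classical in
/-- **Prime `k`-tuples at arbitrary sets of arguments.** There is an exponent `C`, depending only on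
`k`, `Q`, `A'` and `ε`, such that for all `A`, `B`, `E`, `H` there is a set `𝒢` of positive integers with
the following properties.

(1) At most `N / (log N)^A` of the integers up to `N` are not in `𝒢`, for large `N`.

(2) More generally, let `h ≤ H` and let `s 1, ..., s x ≤ B N` have the nearly minimal additive energy
`E_h ≤ x^(2 h) (log N)^B / N`. Then at most `x / (log N)^A` of the `s l ≥ N / (log N)^B` are not in `𝒢`.

(3) Let `k, Q ≥ 1`, `A' ≥ 0` and `ε > 0`, and let `a_1, ..., a_k ∈ 𝒢` be large. Let `𝒩` be any set of positive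
integers `≤ (log a_i)^E` with at least `(log a_i)^C` elements, for all `i`, and put `w = ⌊|𝒩|^(1/Q)⌋`. Then
for all but `|𝒩|^(-1/(4 Q)) a_1 ⋯ a_k` of the vectors `b` with `1 ≤ b_i < a_i` the number of the `n ∈ 𝒩` for
which all `a_i n + b_i` are prime differs from the prediction from the number of the `n ∈ 𝒩` for which no
`a_i n + b_i` has a prime factor `≤ w` by at most `ε` times this prediction plus `|𝒩| / (log a_j)^A'`, for
every `j`. -/
theorem result : ∃ C : ℕ → ℕ → ℕ → ℝ → ℕ, ∀ A B E H : ℕ, ∃ (𝒢 : Set ℕ) (N₀ : ℕ),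
      (∀ N : ℕ, N₀ ≤ N → (((Icc 1 N).filter (fun a => a ∉ 𝒢)).card : ℝ) ≤ N / Real.log N ^ A) ∧
      (∀ h : ℕ, h ≤ H → ∀ N : ℕ, N₀ ≤ N → ∀ (x : ℕ) (s : ℕ → ℕ), (∀ l ∈ Icc 1 x, s l ≤ B * N) →
        (energy h x s : ℝ) * N ≤ Real.log N ^ B * (x : ℝ) ^ (2 * h) →
        (((Icc 1 x).filter (fun l => (N : ℝ) ≤ Real.log N ^ B * s l ∧ s l ∉ 𝒢)).card : ℝ) ≤ x / Real.log N ^ A) ∧
      (∀ (k Q A' : ℕ) (ε : ℝ), 1 ≤ k → 1 ≤ Q → 0 < ε → ∃ N₁ : ℕ, ∀ a : Fin k → ℕ, (∀ i, a i ∈ 𝒢 ∧ N₁ ≤ a i) →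
        ∀ 𝒩 : Finset ℕ, (∀ i, Real.log (a i) ^ C k Q A' ε ≤ 𝒩.card ∧ ∀ n ∈ 𝒩, 1 ≤ n ∧ (n : ℝ) ≤ Real.log (a i) ^ E) →
        ∀ w : ℕ, w ^ Q ≤ 𝒩.card → 𝒩.card < (w + 1) ^ Q →
        (exceptions ε A' a 𝒩 w : ℝ) ≤ (𝒩.card : ℝ) ^ (-(1 / (4 * Q) : ℝ)) * ∏ i, (a i : ℝ)) := by
  have hmain : ∀ (k Q A' : ℕ) (ε : ℝ), ∃ C : ℕ, 1 ≤ k → 1 ≤ Q → 0 < ε → ∀ E E1 : ℕ, ∃ N0 : ℕ,
      ∀ a : Fin k → ℕ, (∀ i, N0 ≤ a i ∧ Pool.Agent.K7.H49.LT.Gd E E1 (a i)) → ∀ 𝒩 : Finset ℕ,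
      (∀ i, Real.log (a i) ^ C ≤ 𝒩.card ∧ ∀ n ∈ 𝒩, 1 ≤ n ∧ (n : ℝ) ≤ Real.log (a i) ^ E) →
      ∀ w : ℕ, w ^ Q ≤ 𝒩.card → 𝒩.card < (w + 1) ^ Q →
      (((Fintype.piFinset (fun i => Icc 1 (a i - 1))).filter (fun b => ¬ ∀ j,
        |Pool.Agent.K7.H49.LT.cN a b 𝒩 * ∏ i, Real.log (a i) -
          (Pool.Agent.H373R2.T7.Vz w)⁻¹ ^ k * Pool.Agent.K7.H49.LT.rN a b 𝒩 w| ≤
          ε * ((Pool.Agent.H373R2.T7.Vz w)⁻¹ ^ k * Pool.Agent.K7.H49.LT.rN a b 𝒩 w) + 𝒩.card / Real.log (a j) ^ A')).card : ℝ) ≤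
        (𝒩.card : ℝ) ^ (-(1 / (4 * Q) : ℝ)) * ∏ i, (a i : ℝ) := by
    intro k Q A' ε
    by_cases h : 1 ≤ k ∧ 1 ≤ Q ∧ 0 < ε
    · obtain ⟨C, h1⟩ := Pool.Agent.K7.H49.LT.arb_main k A' Q h.1 h.2.1 ε h.2.2
      exact ⟨C, fun _ _ _ => h1⟩
    · exact ⟨0, fun h1 h2 h3 => absurd ⟨h1, h2, h3⟩ h⟩
  choose C hm using hmain
  refine ⟨C, fun A B E H => ?_⟩
  obtain ⟨E1, n1, d1, d2⟩ := Pool.Agent.K7.H49.LT.dens E A B H
  refine ⟨{a | Pool.Agent.K7.H49.LT.Gd E E1 a}, n1, ?_, ?_, ?_⟩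
  · intro N hN
    exact d1 N hN
  · intro h hh N hN x s hs hE
    rw [energy_eq] at hE
    exact d2 h hh N hN x s hs hE
  · intro k Q A' ε hk hQ hε
    obtain ⟨n2, h2⟩ := hm k Q A' ε hk hQ hε E E1
    refine ⟨max n2 3, fun a ha 𝒩 hM w hw1 hw2 => ?_⟩
    refine le_trans ?_ (h2 a (fun i => ⟨(le_max_left _ _).trans (ha i).2, (ha i).1⟩) 𝒩 hM w hw1 hw2)
    unfold exceptions
    have hsub : (Fintype.piFinset fun i => Ico 1 (a i)).filter (fun b => ¬ ∀ j,
          |(count a b 𝒩 : ℝ) - expected a b 𝒩 w| ≤ ε * expected a b 𝒩 w + 𝒩.card / Real.log (a j) ^ A') ⊆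
        (Fintype.piFinset (fun i => Icc 1 (a i - 1))).filter (fun b => ¬ ∀ j,
          |Pool.Agent.K7.H49.LT.cN a b 𝒩 * ∏ i, Real.log (a i) -
            (Pool.Agent.H373R2.T7.Vz w)⁻¹ ^ k * Pool.Agent.K7.H49.LT.rN a b 𝒩 w| ≤
            ε * ((Pool.Agent.H373R2.T7.Vz w)⁻¹ ^ k * Pool.Agent.K7.H49.LT.rN a b 𝒩 w) + 𝒩.card / Real.log (a j) ^ A') := by
      intro b hb
      rw [mem_filter, Fintype.mem_piFinset] at hb ⊢
      refine ⟨fun i => ?_, fun h5 => hb.2 fun j => ?_⟩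
      · have := mem_Ico.1 (hb.1 i)
        rw [mem_Icc]
        omega
      · have h5 := h5 j
        have ha3 : ∀ i, 3 ≤ a i := fun i => (le_max_right _ _).trans (ha i).2
        have har : ∀ i, (3 : ℝ) ≤ a i := fun i => by exact_mod_cast ha3 i
        have hlog : ∀ i, 1 ≤ Real.log (a i) := by
          intro i
          rw [Real.le_log_iff_exp_le (by linarith [har i])]
          have := Real.exp_one_lt_d9
          linarith [har i]
        have hP1 : 1 ≤ ∏ i, Real.log (a i) := by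
          calc (1 : ℝ) = ∏ _i : Fin k, (1 : ℝ) := by simp
            _ ≤ _ := prod_le_prod (fun _ _ => zero_le_one) (fun i _ => hlog i)
        set P := ∏ i, Real.log (a i) with hPd
        have hP : 0 < P := by linarith
        have e1 : Pool.Agent.K7.H49.LT.cN a b 𝒩 = count a b 𝒩 := rfl
        have e2 : Pool.Agent.K7.H49.LT.rN a b 𝒩 w = rough a b 𝒩 w := rfl
        have hV : Pool.Agent.H373R2.T7.Vz w = ∏ p ∈ (Icc 1 w).filter Nat.Prime, (1 - 1 / (p : ℝ)) := rfl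
        rw [e1, e2] at h5
        have e3 : expected a b 𝒩 w = ((Pool.Agent.H373R2.T7.Vz w)⁻¹ ^ k * rough a b 𝒩 w) / P := by
          unfold expected
          rw [← hV]
          simp only [one_div, mul_inv]
          rw [prod_mul_distrib, prod_const, card_univ, Fintype.card_fin, prod_inv_distrib, ← hPd]
          field_simp
        rw [e3]
        set r := (Pool.Agent.H373R2.T7.Vz w)⁻¹ ^ k * (rough a b 𝒩 w : ℝ)
        have e4 : (count a b 𝒩 : ℝ) - r / P = (count a b 𝒩 * P - r) / P := by field_simp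
        rw [e4, abs_div, abs_of_pos hP, div_le_iff₀ hP]
        refine h5.trans ?_
        have hn : (0 : ℝ) ≤ 𝒩.card / Real.log (a j) ^ A' := by have := hlog j; positivity
        have e5 : ε * (r / P) * P = ε * r := by field_simp
        rw [add_mul, e5]
        nlinarith
    exact_mod_cast card_le_card hsub

end Pool.Agent.Results.MP_746f10_nt.ArbitraryArguments
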