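import Pool.Agent.K7.H64.LS.Lin

/-!
# The large sieve at few points for prime k-tuplets, uniformly in the linear forms

For `m` points with spacing `δ` and arbitrary complex numbers `c n`, supported on those integers `n` of an interval of
length `N` for which all the `k` linear forms `a i n + b i` take prime values (or values without prime factors up to a
fixed power of `N`), the bound `N + 1 / δ` of the large sieve inequality is improved by the factor
`∏ (1 - ν_p / p)`, the product over the primes `m < p ≤ N`, where `ν_p` is the number of the classes `n` modulo `p`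
for which `p` divides one of the forms. The constant depends only on `k` and not on the forms, whose coefficients may
be arbitrarily large. For one point this is the upper bound sieve, for `N` points the large sieve inequality itself.

Method: for every set `S` of integers the values of the trigonometric polynomials at the points are estimated by
duality, with a majorant of the indicator function of the sifted set, given by a sieve of Brun and Hooley, in the
middle. The majorant is split into a part of large denominators, of small supremum norm, and a part which is a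
nonnegative function of the integers without prime factors up to `m ^ C`.
-/

set_option autoImplicit false

namespace Pool.Agent.Results.MP_746f10_nt.LargeSieveTuples

open Finset

/-- The linear forms `a i x + b i` have no fixed prime divisor. -/
def Admissible {k : ℕ} (a : Fin k → ℕ) (b : Fin k → ℤ) : Prop :=
  (∀ i, 0 < a i) ∧ ∀ p : ℕ, p.Prime → ∃ n : ℤ, ∀ i, ¬ (p : ℤ) ∣ a i * n + b i

/-- The absolute values of all the forms at `n` are prime, or no prime up to `y` divides one of the values. -/
def Sifted {k : ℕ} (a : Fin k → ℕ) (b : Fin k → ℤ) (y : ℝ) (n : ℕ) : Prop :=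
  (∀ i, ((a i : ℤ) * n + b i).natAbs.Prime) ∨ ∀ p : ℕ, p.Prime → (∃ i, (p : ℤ) ∣ a i * n + b i) → y < p

open Classical in
/-- The number of the classes `n` modulo `p` for which `p` divides one of the forms. -/
noncomputable def nu {k : ℕ} (a : Fin k → ℕ) (b : Fin k → ℤ) (p : ℕ) : ℕ :=
  ((range p).filter (fun n : ℕ => ∃ i, (p : ℤ) ∣ a i * n + b i)).card

/-- **The large sieve at few points for prime k-tuplets, uniformly in the forms.** For every `k` and `κ > 0` there is
`C` such that for all admissible systems of `k` linear forms `a i x + b i`, all `A`, all `N ≥ 2`, all sets `S` of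
integers `n` in `(A, A + N]` for which all the values `a i n + b i` are prime, or free of prime factors up to
`N ^ κ`, all `m` real numbers `α j` that have pairwise distance at least `δ` modulo `1` and all complex numbers `c n`,
the sum over `j` of `|∑ c n e(n α_j)| ^ 2`, with `n` in `S`, is at most
`C (N + 1 / δ) ∏ (1 - ν_p / p) ∑ |c n| ^ 2`, the product over the primes `p` with `m < p ≤ N`. -/
theorem result (k : ℕ) (κ : ℝ) (hκ : 0 < κ) : ∃ C : ℝ, 0 < C ∧ ∀ (a : Fin k → ℕ) (b : Fin k → ℤ), Admissible a b →
    ∀ (A N : ℕ) (S : Finset ℕ), 2 ≤ N → S ⊆ Ioc A (A + N) → (∀ n ∈ S, Sifted a b ((N : ℝ) ^ κ) n) →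
    ∀ (m : ℕ) (α : Fin m → ℝ) (δ : ℝ), 0 < δ →
      (∀ i j : Fin m, i ≠ j → ∀ l : ℤ, δ ≤ |α i - α j - l|) →
      ∀ c : ℕ → ℂ,
        ∑ j : Fin m, ‖∑ n ∈ S, c n * Complex.exp (2 * Real.pi * Complex.I * n * α j)‖ ^ 2 ≤
          C * ((N : ℝ) + 1 / δ) * (∏ p ∈ Ioc m N with p.Prime, (1 - (nu a b p : ℝ) / p)) *
            ∑ n ∈ S, ‖c n‖ ^ 2 := by
  obtain ⟨C, hC, h⟩ := Pool.Agent.K7.H64.LS.lsf_lin k hκ
  refine ⟨C, hC, fun a b hab A N S hN hSI hS m α δ hδ hsep c => ?_⟩
  refine h a b hab.1 hab.2 N hN A S hSI (fun n hn => ?_) m α δ hδ hsep c
  rcases hS n hn with h2 | h2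
  · right
    intro i
    rw [Pool.Agent.K7.H64.LS.linf_eval]
    exact h2 i
  · left
    rintro q hq ⟨i, hd⟩
    rw [Pool.Agent.K7.H64.LS.linf_eval] at hd
    exact h2 q hq ⟨i, hd⟩

end Pool.Agent.Results.MP_746f10_nt.LargeSieveTuples
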