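import Pool.Agent.K7.H49.LT.Poly
import Pool.Agent.K7.H49.LT.Dens

set_option autoImplicit false

/-! # Prime `k`-tuples `a_i g_i(m) + b_i` for polynomials `g_i`

For leading coefficients in a set containing almost all integers (and almost all members of every
family of nearly minimal additive energy) and for almost all constant terms, the number of the `m ≤ M`,
`M` a power of the logarithm of the coefficients, for which all the numbers `a_i g_i(m) + b_i` are prime
is given by the singular series up to a factor `1 ± ε`, uniformly in the polynomials `g_i` of bounded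
degree with nonnegative integer coefficients. For `g_1 = ... = g_k = g` these are the prime values of the
linear forms `a_i x + b_i` at the arguments `x = g(m)`.
-/

namespace Pool.Agent.Results.MP_746f10_nt.PolynomialArguments

open Finset

/-- the number of solutions of `s(v 1) + ... + s(v h) = s(w 1) + ... + s(w h)` with all `v i`, `w i` in
`{1, ..., x}` -/
def energy (h x : ℕ) (s : ℕ → ℕ) : ℕ :=
  (((Fintype.piFinset fun _ : Fin h => Icc 1 x) ×ˢ (Fintype.piFinset fun _ : Fin h => Icc 1 x)).filter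
    (fun q => ∑ i, s (q.1 i) = ∑ i, s (q.2 i))).card

/-- the number of `1 ≤ m ≤ M` for which all the numbers `a_i g_i(m) + b_i` are prime -/
def count {k : ℕ} (a b : Fin k → ℕ) (g : Fin k → Polynomial ℕ) (M : ℕ) : ℕ :=
  ((Icc 1 M).filter (fun m => ∀ i, (a i * (g i).eval m + b i).Prime)).card

/-- the number of the classes `m` modulo `p` for which `p` divides some `a_i g_i(m) + b_i` -/
def roots {k : ℕ} (a b : Fin k → ℕ) (g : Fin k → Polynomial ℕ) (p : ℕ) : ℕ :=
  ((range p).filter (fun m => ∃ i, p ∣ a i * (g i).eval m + b i)).card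

/-- the singular series, truncated at `y` -/
noncomputable def sing {k : ℕ} (a b : Fin k → ℕ) (g : Fin k → Polynomial ℕ) (y : ℕ) : ℝ :=
  ∏ p ∈ (Icc 1 y).filter Nat.Prime, (1 - (roots a b g p : ℝ) / p) / (1 - 1 / (p : ℝ)) ^ k

/-- the formula of Bateman and Horn, up to a factor `1 ± ε`, with the singular series truncated at `w` -/
def Holds {k : ℕ} (ε : ℝ) (a b : Fin k → ℕ) (g : Fin k → Polynomial ℕ) (M w : ℕ) : Prop :=
  |(count a b g M : ℝ) - sing a b g w * (M / ∏ i, Real.log (a i))| ≤ ε * (sing a b g w * (M / ∏ i, Real.log (a i)))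

open Classical in
/-- the number of the vectors `b`, `1 ≤ b_i < a_i`, for which the formula fails -/
noncomputable def exceptions {k : ℕ} (ε : ℝ) (a : Fin k → ℕ) (g : Fin k → Polynomial ℕ) (M w : ℕ) : ℕ :=
  ((Fintype.piFinset fun i => Ico 1 (a i)).filter (fun b => ¬ Holds ε a b g M w)).card

lemma energy_eq (h x : ℕ) (s : ℕ → ℕ) : energy h x s = Pool.Agent.H373R2.T7.energy h x (fun l => (s l : ℤ)) := by
  unfold energy Pool.Agent.H373R2.T7.energy
  congr 1
  apply filter_congr
  intro q _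
  simp only
  rw [← Nat.cast_sum, ← Nat.cast_sum, Nat.cast_inj]

open Classical in
/-- **Prime values of almost all systems `a_i g_i(x) + b_i`.** There are exponents `Q`, `C` and `κ > 0`,
depending only on the number `k` of the forms, on the bound `D` for the degrees and on `ε`, such that for
all `A`, `B`, `E`, `H` there is a set `𝒢` of positive integers with the following properties.

(1) At most `N / (log N)^A` of the integers up to `N` are not in `𝒢`, for large `N`.

(2) More generally, let `h ≤ H` and let `s 1, ..., s x ≤ B N` have the nearly minimal additive energy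
`E_h ≤ x^(2 h) (log N)^B / N`. Then at most `x / (log N)^A` of the `s l ≥ N / (log N)^B` are not in `𝒢`.

(3) Let `k, D ≥ 1` and `ε > 0`, and let `a_1, ..., a_k ∈ 𝒢` be large. Let `g_1, ..., g_k` be polynomials of
degrees between `1` and `D` with nonnegative integer coefficients, and let `M ≥ (log a_i)^C` and
`g_i(M) ≤ (log a_i)^E` for all `i`. Then for all but `M^(-κ) a_1 ⋯ a_k` of the vectors `b` with
`1 ≤ b_i < a_i` the number of `m ≤ M` for which all `a_i g_i(m) + b_i` are prime is within a factor `1 ± ε`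
of `𝔖 M / (log a_1 ⋯ log a_k)`, with the singular series `𝔖` truncated at `w = ⌊M^(1/Q)⌋`.

(4) The truncated singular series is positive if and only if no prime `p ≤ w` is such that for every
`m` one of the numbers `a_i g_i(m) + b_i` is divisible by `p`. -/
theorem result : ∃ (Q C : ℕ → ℕ → ℝ → ℕ) (κ : ℕ → ℕ → ℝ → ℝ),
    (∀ (k D : ℕ) (ε : ℝ), 1 ≤ k → 1 ≤ D → 0 < ε → 1 ≤ Q k D ε ∧ 0 < κ k D ε) ∧
    (∀ A B E H : ℕ, ∃ (𝒢 : Set ℕ) (N₀ : ℕ),
      (∀ N : ℕ, N₀ ≤ N → (((Icc 1 N).filter (fun a => a ∉ 𝒢)).card : ℝ) ≤ N / Real.log N ^ A) ∧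
      (∀ h : ℕ, h ≤ H → ∀ N : ℕ, N₀ ≤ N → ∀ (x : ℕ) (s : ℕ → ℕ), (∀ l ∈ Icc 1 x, s l ≤ B * N) →
        (energy h x s : ℝ) * N ≤ Real.log N ^ B * (x : ℝ) ^ (2 * h) →
        (((Icc 1 x).filter (fun l => (N : ℝ) ≤ Real.log N ^ B * s l ∧ s l ∉ 𝒢)).card : ℝ) ≤ x / Real.log N ^ A) ∧
      (∀ (k D : ℕ) (ε : ℝ), 1 ≤ k → 1 ≤ D → 0 < ε → ∃ N₁ : ℕ, ∀ a : Fin k → ℕ, (∀ i, a i ∈ 𝒢 ∧ N₁ ≤ a i) →
        ∀ g : Fin k → Polynomial ℕ, (∀ i, 1 ≤ (g i).natDegree ∧ (g i).natDegree ≤ D) →
        ∀ M w : ℕ, w ^ Q k D ε ≤ M → M < (w + 1) ^ Q k D ε →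
        (∀ i, Real.log (a i) ^ C k D ε ≤ M ∧ (((g i).eval M : ℕ) : ℝ) ≤ Real.log (a i) ^ E) →
        (exceptions ε a g M w : ℝ) ≤ (M : ℝ) ^ (-κ k D ε) * ∏ i, (a i : ℝ))) ∧
    (∀ (k : ℕ) (a b : Fin k → ℕ) (g : Fin k → Polynomial ℕ) (w : ℕ),
      0 < sing a b g w ↔ ∀ p : ℕ, p.Prime → p ≤ w → ∃ m : ℕ, ∀ i, ¬ p ∣ a i * (g i).eval m + b i) := by
  have hmain : ∀ (k D : ℕ) (ε : ℝ), ∃ (Q C : ℕ) (κ : ℝ), 1 ≤ k → 1 ≤ D → 0 < ε → 1 ≤ Q ∧ 0 < κ ∧ ∀ E E1 : ℕ, ∃ N0 : ℕ,
    ∀ a : Fin k → ℕ, (∀ i, N0 ≤ a i ∧ Pool.Agent.K7.H49.LT.Gd E E1 (a i)) → ∀ g : Fin k → Polynomial ℕ,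
    (∀ i, 1 ≤ (g i).natDegree ∧ (g i).natDegree ≤ D) → ∀ M w : ℕ,
    (∀ i, Real.log (a i) ^ C ≤ M ∧ (((g i).eval M : ℕ) : ℝ) ≤ Real.log (a i) ^ E) → w ^ Q ≤ M → M < (w + 1) ^ Q →
    (((Fintype.piFinset (fun i => Icc 1 (a i - 1))).filter (fun b => ¬
      |Pool.Agent.K7.H49.LT.cnt (fun i n => a i * (g i).eval n) b M * ∏ i, Real.log (a i) -
        M * Pool.Agent.K7.H49.LT.sg k (Pool.Agent.K7.H49.LT.nu (fun i n => a i * (g i).eval n) b) w| ≤
        ε * (M * Pool.Agent.K7.H49.LT.sg k (Pool.Agent.K7.H49.LT.nu (fun i n => a i * (g i).eval n) b) w))).card : ℝ) ≤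
      (M : ℝ) ^ (-κ) * ∏ i, (a i : ℝ) := by
    intro k D ε
    by_cases h : 1 ≤ k ∧ 1 ≤ D ∧ 0 < ε
    · obtain ⟨Q, C, κ, h1⟩ := Pool.Agent.K7.H49.LT.poly_main k D h.1 h.2.1 ε h.2.2
      exact ⟨Q, C, κ, fun _ _ _ => h1⟩
    · exact ⟨0, 0, 0, fun h1 h2 h3 => absurd ⟨h1, h2, h3⟩ h⟩
  choose Q C κ hm using hmain
  refine ⟨Q, C, κ, fun k D ε h1 h2 h3 => ⟨(hm k D ε h1 h2 h3).1, (hm k D ε h1 h2 h3).2.1⟩, fun A B E H => ?_, ?_⟩
  · obtain ⟨E1, n1, d1, d2⟩ := Pool.Agent.K7.H49.LT.dens E A B H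
    refine ⟨{a | Pool.Agent.K7.H49.LT.Gd E E1 a}, n1, ?_, ?_, ?_⟩
    · intro N hN
      exact d1 N hN
    · intro h hh N hN x s hs hE
      rw [energy_eq] at hE
      exact d2 h hh N hN x s hs hE
    · intro k D ε hk hD hε
      obtain ⟨n2, h2⟩ := (hm k D ε hk hD hε).2.2 E E1
      refine ⟨max n2 3, fun a ha g hg M w hw1 hw2 hM => ?_⟩
      refine le_trans ?_ (h2 a (fun i => ⟨(le_max_left _ _).trans (ha i).2, (ha i).1⟩) g hg M w hM hw1 hw2)
      unfold exceptions
      have hsub : (Fintype.piFinset fun i => Ico 1 (a i)).filter (fun b => ¬ Holds ε a b g M w) ⊆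
          (Fintype.piFinset (fun i => Icc 1 (a i - 1))).filter (fun b => ¬
            |Pool.Agent.K7.H49.LT.cnt (fun i n => a i * (g i).eval n) b M * ∏ i, Real.log (a i) -
              M * Pool.Agent.K7.H49.LT.sg k (Pool.Agent.K7.H49.LT.nu (fun i n => a i * (g i).eval n) b) w| ≤
              ε * (M * Pool.Agent.K7.H49.LT.sg k (Pool.Agent.K7.H49.LT.nu (fun i n => a i * (g i).eval n) b) w)) := by
        intro b hb
        rw [mem_filter, Fintype.mem_piFinset] at hb ⊢
        refine ⟨fun i => ?_, fun h5 => hb.2 ?_⟩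
        · have := mem_Ico.1 (hb.1 i)
          rw [mem_Icc]
          omega
        · have hP : 0 < ∏ i, Real.log (a i) := prod_pos fun i _ => Real.log_pos (by
            have : 3 ≤ a i := (le_max_right _ _).trans (ha i).2
            exact_mod_cast (by omega : 1 < a i))
          have e1 : Pool.Agent.K7.H49.LT.cnt (fun i n => a i * (g i).eval n) b M = count a b g M := rfl
          have e2 : Pool.Agent.K7.H49.LT.sg k (Pool.Agent.K7.H49.LT.nu (fun i n => a i * (g i).eval n) b) w = sing a b g w := rfl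
          rw [e1, e2] at h5
          unfold Holds
          set P := ∏ i, Real.log (a i) with hPd
          set s := sing a b g w
          have e3 : (count a b g M : ℝ) - s * (M / P) = (count a b g M * P - M * s) / P := by field_simp
          have e4 : ε * (s * (M / P)) = (ε * (M * s)) / P := by ring
          rw [e3, e4, abs_div, abs_of_pos hP]
          exact div_le_div_of_nonneg_right h5 hP.le
      exact_mod_cast card_le_card hsub
  · intro k a b g w
    have hfac : ∀ p : ℕ, p.Prime → roots a b g p ≤ p := by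
      intro p _
      unfold roots
      refine (card_filter_le _ _).trans ?_
      rw [card_range]
    have hden : ∀ p : ℕ, p.Prime → (0 : ℝ) < (1 - 1 / (p : ℝ)) ^ k := by
      intro p hp
      apply pow_pos
      have h2 : (2 : ℝ) ≤ p := by exact_mod_cast hp.two_le
      rw [sub_pos, div_lt_one (by linarith)]
      linarith
    have hiff : ∀ p : ℕ, p.Prime → (roots a b g p < p ↔ ∃ m : ℕ, ∀ i, ¬ p ∣ a i * (g i).eval m + b i) := by
      intro p hp
      constructor
      · intro h
        by_contra hcon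
        push Not at hcon
        have h1 : (range p).filter (fun m => ∃ i, p ∣ a i * (g i).eval m + b i) = range p :=
          filter_true_of_mem fun m _ => hcon m
        unfold roots at h
        rw [h1, card_range] at h
        exact lt_irrefl _ h
      · rintro ⟨m, hm⟩
        apply lt_of_le_of_ne (hfac p hp)
        intro heq
        have h1 : (range p).filter (fun m => ∃ i, p ∣ a i * (g i).eval m + b i) = range p := by
          apply eq_of_subset_of_card_le (filter_subset _ _)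
          unfold roots at heq
          rw [heq, card_range]
        have h2 : m % p ∈ range p := mem_range.2 (Nat.mod_lt _ hp.pos)
        rw [← h1, mem_filter] at h2
        obtain ⟨i, hi⟩ := h2.2
        apply hm i
        have h5 := Pool.Agent.K7.H49.LT.eval_mod (g i) p m
        have h6 : (p : ℤ) ∣ ((a i * (g i).eval (m % p) + b i : ℕ) : ℤ) := by exact_mod_cast hi
        have h7 : (p : ℤ) ∣ ((a i * (g i).eval m + b i : ℕ) : ℤ) := by
          have e : ((a i * (g i).eval m + b i : ℕ) : ℤ) = ((a i * (g i).eval (m % p) + b i : ℕ) : ℤ) +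
              a i * (((g i).eval m : ℕ) - (((g i).eval (m % p) : ℕ) : ℤ)) := by push_cast; ring
          rw [e]
          exact dvd_add h6 (Dvd.dvd.mul_left h5 _)
        exact_mod_cast h7
    have hpos : ∀ p : ℕ, p.Prime → (0 < (1 - (roots a b g p : ℝ) / p) / (1 - 1 / (p : ℝ)) ^ k ↔ roots a b g p < p) := by
      intro p hp
      have hp0 : (0 : ℝ) < p := by exact_mod_cast hp.pos
      rw [div_pos_iff_of_pos_right (hden p hp), sub_pos, div_lt_one hp0]
      exact_mod_cast Iff.rfl
    constructor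
    · intro h p hp hpw
      rw [← hiff p hp, ← hpos p hp]
      have h1 : (1 - (roots a b g p : ℝ) / p) / (1 - 1 / (p : ℝ)) ^ k ≠ 0 := by
        intro h0
        apply h.ne'
        exact prod_eq_zero (i := p) (mem_filter.2 ⟨mem_Icc.2 ⟨hp.one_le, hpw⟩, hp⟩) h0
      apply lt_of_le_of_ne _ h1.symm
      apply div_nonneg _ (hden p hp).le
      rw [sub_nonneg, div_le_one (by exact_mod_cast hp.pos)]
      exact_mod_cast hfac p hp
    · intro h
      apply prod_pos
      intro p hp
      rw [mem_filter, mem_Icc] at hp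
      exact (hpos p hp.2).2 ((hiff p hp.2).2 (h p hp.2 hp.1.2))

end Pool.Agent.Results.MP_746f10_nt.PolynomialArguments
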